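import Pool.Agent.H441.FT.Gen
import Pool.Graph.R_pool_sql_team_seeded_63374d34.Results.MP_c6ff8d_ag.SmoothHypersurfacesSuffice

/-!
# Hyperbolicity and subvarieties of general type: systems of diagonal equations suffice

MP_c6ff8d_ag, Q1 (Lang 1986): a projective manifold is hyperbolic if and only if all its closed
subvarieties of positive dimension are of general type.

We consider the following two types of systems of equations.

* `Diagonal m D`, where `m ≥ 2` is fixed (for example `m = 2`) and `D` is a symmetric set of complex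
  numbers which contains `1` and generates the vector space `ℂ` over `ℚ` (for example `D = ℂ`, or the
  set of all complex numbers of absolute value `1`): `Y : ∑ j, c_ij y_j ^ m = 0`, `i < k`, with
  coefficients in `D ∪ {0}`;
* `FourTerms`: intersections of diagonal quadrics with at most four terms, of the form
  `y_p ^ 2 + y_q ^ 2 = 2 y_s ^ 2 + 2 y_t ^ 2` or `y_p ^ 2 - y_q ^ 2 = a (y_s ^ 2 - y_t ^ 2)` (here `m = 2`).

**Theorem 1.** Let `X` be any projective variety over `ℂ` in `P^n` (any dimension, any singularities).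
There are a system `Y` of the given type in `P^N` and forms `φ_0, …, φ_N` of the same degree, among
them all monomials of this degree, so that `φ : P^n → P^N` is a closed embedding, such that
`X = φ⁻¹(Y)`, and for the copies `{(ζ_0 φ_0(x) : … : ζ_N φ_N(x)) : x ∈ X}`, `ζ_j ^ m = 1`, of `X` in `Y`

* all nonconstant entire curves in `Y` lie in the copies (and come from entire curves in `X`);
* all closed subvarieties of `Y` of positive dimension are of general type or lie in the copies.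

Hence `Y` is hyperbolic if and only if `X` is, and all closed subvarieties of `Y` of positive dimension
are of general type if and only if this holds for `X`.

**Theorem 2.** Let `𝒳` be the class of all projective manifolds, or any class of projective varieties
which contains all smooth hypersurfaces in `P^N`, `N ≥ 3` (and any intermediate class). Each of the
following statements holds for all `X ∈ 𝒳` if and only if it holds for all `Y` of the given type:

* if all closed subvarieties of positive dimension are of general type, then the variety is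
  hyperbolic;
* if the variety is hyperbolic, then all its closed subvarieties of positive dimension are of general
  type;
* Lang's conjecture, i.e. the equivalence.

Proof. See `Pool/Agent/H441/UA`, `Pool/Agent/H441/FT`. The `m`-th powers of the coordinates of a point of
`Y` over a field are the values of a linear functional on the `m`-th powers of many linear forms in
the monomials. A theorem of Büchi type for meromorphic functions, and one for function fields which
are not of general type, show that the functional is the evaluation at a point of the Veronese image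
of `X`. The step from projective varieties to smooth hypersurfaces in Theorem 2 is the library theorem
`SmoothHypersurfacesSuffice`.
-/

set_option autoImplicit false

namespace Pool.Agent.Results.MP_c6ff8d_ag.DiagonalSystemsSuffice

open MvPolynomial
open Pool.Agent.W602.GT (SubVar GeneralType)

/-- systems of equations in `P^N` -/
abbrev Equations (N k : ℕ) : Type := Fin k → MvPolynomial (Fin (N + 1)) ℂ

/-- the systems of diagonal equations `∑ j, c_j * y_j ^ m = 0` with coefficients in `D ∪ {0}` -/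
def Diagonal (m : ℕ) (D : Set ℂ) (N k : ℕ) (Y : Equations N k) : Prop :=
  ∀ i, ∃ c : Fin (N + 1) → ℂ, (∀ j, c j = 0 ∨ c j ∈ D) ∧ Y i = ∑ j, C (c j) * X j ^ m

/-- the systems of equations `y_p ^ 2 + y_q ^ 2 = 2 y_s ^ 2 + 2 y_t ^ 2` or
`y_p ^ 2 - y_q ^ 2 = a (y_s ^ 2 - y_t ^ 2)` -/
def FourTerms (N k : ℕ) (Y : Equations N k) : Prop :=
  ∀ i, ∃ p q s t : Fin (N + 1), Y i = X p ^ 2 + X q ^ 2 - 2 * (X s ^ 2 + X t ^ 2) ∨
    ∃ a : ℂ, Y i = X p ^ 2 - X q ^ 2 - C a * (X s ^ 2 - X t ^ 2)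

/-- all entire curves in `V(S)` are constant: `V(S)` is hyperbolic -/
def Hyperbolic {n : ℕ} (S : Set (MvPolynomial (Fin (n + 1)) ℂ)) : Prop :=
  ∀ f : ℂ → (Fin (n + 1) → ℂ), Differentiable ℂ f → (∀ z, f z ≠ 0) →
    (∀ z, ∀ p ∈ S, eval (f z) p = 0) → ∀ z w, ∃ c : ℂ, f w = c • f z

/-- all closed subvarieties of `V(S)` of positive dimension are of general type -/
def AllGeneral {n : ℕ} (S : Set (MvPolynomial (Fin (n + 1)) ℂ)) : Prop :=
  ∀ (L : Type) [Field L] [Algebra ℂ L] (w : ℕ) (y : Fin (n + 1) → L), 1 ≤ w →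
    SubVar (fun p : S => (p : MvPolynomial (Fin (n + 1)) ℂ)) L w y → GeneralType ℂ L w

/-- the partial derivatives have no common zeros in `P^N` -/
def Smooth {N : ℕ} (A : MvPolynomial (Fin (N + 1)) ℂ) : Prop :=
  ∀ y : Fin (N + 1) → ℂ, y ≠ 0 → ∃ j, eval y (pderiv j A) ≠ 0

/-- a class of projective varieties which contains all smooth hypersurfaces in `P^N`, `N ≥ 3` (for
example all projective manifolds, all smooth hypersurfaces, or all projective varieties) -/
structure ContainsHypersurfaces (𝒳 : ∀ n : ℕ, Set (MvPolynomial (Fin (n + 1)) ℂ) → Prop) :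
    Prop where
  forms : ∀ (n : ℕ) (S : Set (MvPolynomial (Fin (n + 1)) ℂ)), 𝒳 n S →
    ∀ p ∈ S, ∃ e, p.IsHomogeneous e
  hypersurfaces : ∀ (N e : ℕ) (A : MvPolynomial (Fin (N + 1)) ℂ), 3 ≤ N → A.IsHomogeneous e →
    Smooth A → 𝒳 N {A}

/-- `φ` embeds `V(S)` in `V(Y)`; all nonconstant entire curves in `V(Y)`, and all closed subvarieties
of positive dimension which are not of general type, come from `V(S)`. -/
structure Embeds (m : ℕ) {n N k : ℕ} (S : Set (MvPolynomial (Fin (n + 1)) ℂ))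
    (φ : Fin (N + 1) → MvPolynomial (Fin (n + 1)) ℂ) (Y : Equations N k) : Prop where
  mono : ∃ e, 1 ≤ e ∧ (∀ j, (φ j).IsHomogeneous e) ∧
    ∀ α : Fin (n + 1) → ℕ, ∑ i, α i = e → ∃ j, φ j = ∏ i, X i ^ α i
  points : ∀ x : Fin (n + 1) → ℂ, x ≠ 0 →
    ((∀ p ∈ S, eval x p = 0) ↔ ∀ i, eval (fun j => eval x (φ j)) (Y i) = 0)
  curves : ∀ f : ℂ → Fin (N + 1) → ℂ, Differentiable ℂ f → (∀ z, f z ≠ 0) →
    (∀ z i, eval (f z) (Y i) = 0) → (∀ z w, ∃ b : ℂ, f w = b • f z) ∨
      ∃ (ζ : Fin (N + 1) → ℂ) (x : ℂ → Fin (n + 1) → ℂ), (∀ j, ζ j ^ m = 1) ∧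
        Differentiable ℂ x ∧ (∀ z, x z ≠ 0) ∧ (∀ z, ∀ p ∈ S, eval (x z) p = 0) ∧
        ∀ z j, f z j = ζ j * eval (x z) (φ j)
  sub : ∀ (L : Type) [Field L] [Algebra ℂ L] (w : ℕ) (y : Fin (N + 1) → L), 1 ≤ w →
    SubVar Y L w y → GeneralType ℂ L w ∨
      ∃ (ζ : Fin (N + 1) → ℂ) (x : Fin (n + 1) → L) (s : L), (∀ j, ζ j ^ m = 1) ∧ s ≠ 0 ∧
        SubVar (fun p : S => (p : MvPolynomial (Fin (n + 1)) ℂ)) L w x ∧
        ∀ j, y j = s * (algebraMap ℂ L (ζ j) * aeval x (φ j))

/-- the two theorems for the class `𝒴` of systems -/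
structure Suffices (m : ℕ) (𝒴 : ∀ N k : ℕ, Equations N k → Prop) : Prop where
  theorem1 : ∀ (n : ℕ) (S : Set (MvPolynomial (Fin (n + 1)) ℂ)),
    (∀ p ∈ S, ∃ e, p.IsHomogeneous e) →
    ∃ (N k : ℕ) (Y : Equations N k) (φ : Fin (N + 1) → MvPolynomial (Fin (n + 1)) ℂ),
      𝒴 N k Y ∧ Embeds m S φ Y ∧ (Hyperbolic (Set.range Y) ↔ Hyperbolic S) ∧
      (AllGeneral (Set.range Y) ↔ AllGeneral S)
  theorem2 : ∀ 𝒳 : ∀ n : ℕ, Set (MvPolynomial (Fin (n + 1)) ℂ) → Prop,
    ContainsHypersurfaces 𝒳 →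
    ((∀ (n : ℕ) (S : Set (MvPolynomial (Fin (n + 1)) ℂ)), 𝒳 n S →
        AllGeneral S → Hyperbolic S) ↔
      ∀ (N k : ℕ) (Y : Equations N k), 𝒴 N k Y →
        AllGeneral (Set.range Y) → Hyperbolic (Set.range Y)) ∧
    ((∀ (n : ℕ) (S : Set (MvPolynomial (Fin (n + 1)) ℂ)), 𝒳 n S →
        Hyperbolic S → AllGeneral S) ↔
      ∀ (N k : ℕ) (Y : Equations N k), 𝒴 N k Y →
        Hyperbolic (Set.range Y) → AllGeneral (Set.range Y)) ∧
    ((∀ (n : ℕ) (S : Set (MvPolynomial (Fin (n + 1)) ℂ)), 𝒳 n S →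
        (Hyperbolic S ↔ AllGeneral S)) ↔
      ∀ (N k : ℕ) (Y : Equations N k), 𝒴 N k Y →
        (Hyperbolic (Set.range Y) ↔ AllGeneral (Set.range Y)))

section proof

open Pool.Agent.H441.UA (FEmb vals)
open Pool.Agent.H441.DQ (dform dform_hom)
open Pool.Agent.H441.FT (IsClass exists_fin root_ne copy_gen
  vals_smul vals_diff')

variable {n : ℕ}

theorem sub_range {N k : ℕ} {Y : Equations N k} {L : Type} [Field L] [Algebra ℂ L] {w : ℕ}
    {y : Fin (N + 1) → L} :
    SubVar (fun p : Set.range Y => (p : MvPolynomial (Fin (N + 1)) ℂ)) L w y ↔ SubVar Y L w y := by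
  constructor
  · intro h
    exact ⟨h.ne, fun i => h.mem ⟨Y i, i, rfl⟩, h.gen, h.dim⟩
  · intro h
    refine ⟨h.ne, ?_, h.gen, h.dim⟩
    rintro ⟨_, i, rfl⟩
    exact h.mem i

/-- the structure theorem -/
theorem part_one {m : ℕ} {𝒴 : ∀ N k : ℕ, Equations N k → Prop} (h𝒴 : IsClass m 𝒴)
    (S : Set (MvPolynomial (Fin (n + 1)) ℂ)) (hS : ∀ p ∈ S, ∃ e, p.IsHomogeneous e) :
    ∃ (N k : ℕ) (Y : Equations N k) (φ : Fin (N + 1) → MvPolynomial (Fin (n + 1)) ℂ),
      𝒴 N k Y ∧ Embeds m S φ Y ∧ (Hyperbolic (Set.range Y) ↔ Hyperbolic S) ∧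
      (AllGeneral (Set.range Y) ↔ AllGeneral S) := by
  obtain ⟨T, hT, hTS⟩ := exists_fin S
  obtain ⟨N, k, φ, c, I, J, hY, hE⟩ := h𝒴.emb n T Empty Empty
    (fun p : T => (p : MvPolynomial (Fin (n + 1)) ℂ)) (fun e : Empty => e.elim)
    (fun e : Empty => e.elim) (fun p => hS p (hT p.2)) (fun e => e.elim) (fun e => e.elim)
  have hm0 : m ≠ 0 := by
    have := h𝒴.pos
    omega
  have hTS2 : ∀ x : Fin (n + 1) → ℂ,
      (∀ p : T, eval x (p : MvPolynomial (Fin (n + 1)) ℂ) = 0) ↔ ∀ p ∈ S, eval x p = 0 :=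
    fun x => hTS ℂ x
  obtain ⟨e, hsm⟩ := vals_smul hE
  have hemb : Embeds m S φ (fun i => dform m (c i)) := by
    refine ⟨hE.mono, fun x hx => ?_, fun f hf hf0 hfY => ?_, fun L _ _ w y _ hy => ?_⟩
    · rw [← hTS2]
      exact hE.pts ℂ (RingHom.id ℂ) x hx
    · by_cases hcon : ∀ z w, ∃ b : ℂ, f w = b • f z
      · exact Or.inl hcon
      · right
        push Not at hcon
        obtain ⟨ζ, x, hζ, hxd, hx0, hxF, hfx⟩ := hE.curves (RingHom.id ℂ) f hf hf0 hfY hcon
        exact ⟨ζ, x, hζ, hxd, hx0, fun z => (hTS2 (x z)).1 (hxF z), hfx⟩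
    · by_cases hg : GeneralType ℂ L w
      · exact Or.inl hg
      · right
        obtain ⟨ζ, x, s, hζ, hx, hs, hxF, hyx⟩ := hE.sub ℂ (RingHom.id ℂ) L w y hy.ne hy.gen
          hy.dim hg (fun i => hy.mem i)
        exact ⟨ζ, x, s, hζ, hs, ⟨hx, fun p => (hTS L x).1 hxF p p.2,
          copy_gen hE (RingHom.id ℂ) hy.gen hx hs hyx, hy.dim⟩, hyx⟩
  refine ⟨N, k, _, φ, hY, hemb, ⟨fun h f hf hf0 hfS z w => ?_, fun h f hf hf0 hfY z w => ?_⟩,
    fun h L _ _ w y hw hy => ?_, fun h L _ _ w y hw hy => ?_⟩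
  · -- entire curves in `X` give entire curves in `Y`
    obtain ⟨b, hb⟩ := h (fun z => vals (RingHom.id ℂ) φ (f z)) (vals_diff' (RingHom.id ℂ) φ hf)
      (fun z => hE.ne ℂ _ _ (hf0 z)) (by
        rintro z _ ⟨i, rfl⟩
        exact (hE.pts ℂ (RingHom.id ℂ) (f z) (hf0 z)).1 ((hTS2 _).2 (hfS z)) i) z w
    exact hE.inj ℂ (RingHom.id ℂ) (f w) (f z) b (hf0 w) hb
  · rcases hemb.curves f hf hf0 (fun z i => hfY z _ ⟨i, rfl⟩) with h1 | ⟨ζ, x, hζ, hxd, hx0, hxS,
      hfx⟩
    · exact h1 z w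
    · obtain ⟨b, hb⟩ := h x hxd hx0 hxS z w
      refine ⟨b ^ e, funext fun j => ?_⟩
      have h2 : eval (x w) (φ j) = b ^ e * eval (x z) (φ j) := by
        have h3 := congrFun (hsm ℂ (RingHom.id ℂ) (x z) b) j
        rw [← hb] at h3
        exact h3
      rw [hfx, h2, Pi.smul_apply, smul_eq_mul, hfx]
      ring
  · refine h L w (vals ((algebraMap ℂ L).comp (RingHom.id ℂ)) φ y) hw ?_
    rw [sub_range]
    refine ⟨hE.ne L _ y hy.ne, fun i => ?_, hE.coords_eq (RingHom.id ℂ) hy.gen, hy.dim⟩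
    exact (hE.pts L ((algebraMap ℂ L).comp (RingHom.id ℂ)) y hy.ne).1
      ((hTS L y).2 fun p hp => hy.mem ⟨p, hp⟩) i
  · rw [sub_range] at hy
    rcases hemb.sub L w y hw hy with h1 | ⟨ζ, x, s, -, -, hx, -⟩
    · exact h1
    · exact h L w x hw hx

/-- smooth hypersurfaces with the same properties -/
theorem part_two {N k d : ℕ} (hN : 1 ≤ N) (Y : Equations N k) (hY : ∀ i, (Y i).IsHomogeneous d) :
    ∃ (M e : ℕ) (A : MvPolynomial (Fin (M + 1)) ℂ), 3 ≤ M ∧ A.IsHomogeneous e ∧ Smooth A ∧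
      (Hyperbolic ({A} : Set (MvPolynomial (Fin (M + 1)) ℂ)) ↔ Hyperbolic (Set.range Y)) ∧
      (AllGeneral ({A} : Set (MvPolynomial (Fin (M + 1)) ℂ)) ↔ AllGeneral (Set.range Y)) := by
  obtain ⟨D₁, H, -⟩ := Pool.Agent.Results.MP_c6ff8d_ag.SmoothHypersurfacesSuffice.result
  obtain ⟨M, v, hv, H2⟩ := H N (max 3 d) hN (le_max_left _ _)
  obtain ⟨Q, hQ, hsm, -, h1, h2⟩ := H2 (D₁ M) le_rfl (Set.range Y) (by
    rintro _ ⟨i, rfl⟩
    exact ⟨d, le_max_right _ _, hY i⟩)
  refine ⟨M, _, _, ?_, Pool.Agent.N254.SQ.power_form hQ, hsm, h1, h2⟩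
  -- there are at least four monomials
  have h3 : ∀ i : Fin 4, ∃ a, v a = fun j =>
      (if j = 0 then (i : ℕ) else 0) + if j = ⟨1, by omega⟩ then max 3 d - i else 0 := by
    intro i
    apply hv.surj
    rw [Finset.sum_add_distrib]
    simp
    omega
  choose a ha using h3
  have hinj : Function.Injective a := by
    intro i i' h
    have h4 := congrFun ((ha i).symm.trans (h ▸ ha i')) 0
    simp at h4
    exact Fin.ext h4
  have := Fintype.card_le_of_injective a hinj
  simp at this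
  omega

theorem transfer {m : ℕ} {𝒴 : ∀ N k : ℕ, Equations N k → Prop} (h𝒴 : IsClass m 𝒴)
    {𝒳 : ∀ n : ℕ, Set (MvPolynomial (Fin (n + 1)) ℂ) → Prop} (h𝒳 : ContainsHypersurfaces 𝒳)
    (R : Prop → Prop → Prop) (hR : R True True) :
    (∀ (n : ℕ) (S : Set (MvPolynomial (Fin (n + 1)) ℂ)), 𝒳 n S →
        R (Hyperbolic S) (AllGeneral S)) ↔
      ∀ (N k : ℕ) (Y : Equations N k), 𝒴 N k Y →
        R (Hyperbolic (Set.range Y)) (AllGeneral (Set.range Y)) := by
  constructor
  · intro h N k Y hY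
    rcases Nat.eq_zero_or_pos N with hN | hN
    · subst hN
      have h1 : Hyperbolic (Set.range Y) := by
        intro f hf hf0 hfS z w
        have h1 : f z 0 ≠ 0 := by
          intro h2
          apply hf0 z
          funext j
          rw [show j = 0 from Fin.ext (by omega)]
          exact h2
        refine ⟨f w 0 / f z 0, funext fun j => ?_⟩
        rw [show j = 0 from Fin.ext (by omega), Pi.smul_apply, smul_eq_mul, div_mul_cancel₀ _ h1]
      have h2 : AllGeneral (Set.range Y) := by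
        intro L _ _ w y hw hy
        have := Pool.Agent.Results.MP_c6ff8d_ag.SmoothHypersurfacesSuffice.dim_le hy
        omega
      rw [eq_true h1, eq_true h2]
      exact hR
    · obtain ⟨M, e, A, hM, hA, hsm, h1, h2⟩ := part_two hN Y (h𝒴.hom N k Y hY)
      rw [← h1, ← h2]
      exact h M _ (h𝒳.hypersurfaces M e A hM hA hsm)
  · intro h n S hS
    obtain ⟨N, k, Y, φ, hY, -, h1, h2⟩ := part_one h𝒴 S (h𝒳.forms n S hS)
    rw [← h1, ← h2]
    exact h N k Y hY

theorem suffices_of {m : ℕ} {𝒴 : ∀ N k : ℕ, Equations N k → Prop} (h𝒴 : IsClass m 𝒴) :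
    Suffices m 𝒴 :=
  ⟨fun _ S hS => part_one h𝒴 S hS, fun _ h𝒳 => ⟨transfer h𝒴 h𝒳 (fun a b => b → a) fun h => h,
    transfer h𝒴 h𝒳 (fun a b => a → b) fun h => h, transfer h𝒴 h𝒳 (fun a b => a ↔ b) Iff.rfl⟩⟩

end proof

theorem result :
    (∀ m : ℕ, 2 ≤ m → ∀ D : Set ℂ, 1 ∈ D → (∀ x ∈ D, -x ∈ D) → Submodule.span ℚ D = ⊤ →
      Suffices m (Diagonal m D)) ∧
    Suffices 2 FourTerms :=
  ⟨fun _ hm _ hD1 hD2 hD3 => suffices_of (Pool.Agent.H441.FT.isClass_diagonal hm hD1 hD2 hD3),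
    suffices_of Pool.Agent.H441.FT.isClass_four⟩

end Pool.Agent.Results.MP_c6ff8d_ag.DiagonalSystemsSuffice
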