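import Pool.Agent.H918.J.Seven

/-!
# Lang's conjecture for surfaces which are, up to a finite unramified covering, fibred over an elliptic
curve

Let `X = {F = 0}` be an irreducible complex projective surface of general type (it may be singular),
with the generic point `y`, and let `X' = {F' = 0}` be a finite unramified covering of `X` (given by the
forms `Q`) with a holomorphic map `α` to an elliptic curve `ℂ / L`, for example `X' = X`. Suppose that
there is a finite set `B` of points of the elliptic curve such that `X'` has a semistable reduction
which is unramified outside of the fibres over `B` (`HasReduction`; by the theorems of Deligne and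
Mumford and of Arakelov all smooth projective surfaces `X'` of general type with a holomorphic map
with connected fibres to an elliptic curve satisfy this), and that a form `H` which is not zero on `X`
is zero at the images of the points of the fibres over `B`.

**Theorem.** The following conditions are equivalent (the definitions are those of the library,
`Pool/Graph/R_pool_sql_team_seeded_3997aac3/Q103/SF/Defs2.lean`):

* `KobayashiHyp`: the Kobayashi pseudodistance of `X` separates points;
* `AllGeneral`: all closed subvarieties of positive dimension, `X` included, are of general type;
* `BrodyHyp`: all holomorphic maps from the complex plane to `X` are constant;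
* `PicardHyp`: all holomorphic maps from the punctured disc to `X` extend to the disc;
* `NoMero`: all meromorphic maps from the spaces `ℂ ^ g` to `X` are constant;
* `NoElliptic`: all maps from elliptic curves to `X` are constant;
* there are no closed curves of geometric genus at most one in `X`.
-/

set_option autoImplicit false
set_option linter.overlappingInstances false

open FF Pool.Agent.W602.GT Pool.Agent.N154.GG
open Pool.Agent.H918.SS (ProjVariety HasReduction EtaleCovering OverPoint)
open Pool.Agent.Q103.SF
open Pool.Agent.H918.AI

namespace Pool.Agent.Results.MP_c6ff8d_ag.FibredLangKobayashi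

/-- **Lang's conjecture for surfaces fibred over an elliptic curve.** See the explanation at the
beginning of the file. -/
theorem result {m n : ℕ} {ι ι' : Type} (F : ι → MvPolynomial (Fin (n + 1)) ℂ) (K : Type) [Field K]
    [Algebra ℂ K] (y : Fin (n + 1) → K) (hX : ProjVariety F 2 y) (hK : GeneralType ℂ K 2)
    (F' : ι' → MvPolynomial (Fin (m + 1)) ℂ) (hF' : ∀ i, IsForm (F' i))
    (Q : Fin (n + 1) → MvPolynomial (Fin (m + 1)) ℂ) (hQ : EtaleCovering F F' Q) (L : PeriodPair)
    (α : (Fin (m + 1) → ℂ) → ℂ ⧸ L.lattice) (hα : HolToTorus (Cone F') L α)
    (B : Set (ℂ ⧸ L.lattice)) (hB : B.Finite) (hred : HasReduction F' α B)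
    (H : MvPolynomial (Fin (n + 1)) ℂ) (hH : IsForm H) (hy : val y H ≠ 0)
    (hHB : ∀ u ∈ Cone F, (∃ b ∈ B, OverPoint F' α Q b u) → val u H = 0) :
    List.TFAE [KobayashiHyp y, AllGeneral y, BrodyHyp y, PicardHyp y, NoMero y, NoElliptic y,
      lowCurves y = ∅] :=
  seven_surface hX hK hF' hQ hα hB hred hH hy hHB

end Pool.Agent.Results.MP_c6ff8d_ag.FibredLangKobayashi
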