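import Mathlib
import Pool.Agent.H917.G.W1

/-!
MP_c6ff8d_ag, Q1: Lang's conjecture for projective varieties such that some symmetric power of the
cotangent bundle is generated by global sections, and for all their closed subvarieties.
-/

set_option autoImplicit false

namespace Pool.Agent.Results.MP_c6ff8d_ag.GenPowersHyperbolic

open MvPolynomial Metric Set Pool.Agent.H917
open Pool.Agent.W602.GT (GeneralType)

/-- Let `X` be the projective variety with the homogeneous ideal `p`, such that the `m`-th symmetric
power of the cotangent sheaf of `X` is generated by global sections, for some `m ≥ 1`. Let `V` be a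
closed algebraic subset of `X` (such as `X` itself), with the homogeneous ideal `q`. The following
are equivalent: every irreducible closed subvariety of `V` is of general type; `V` contains no
nonconstant entire curve (so `V` is Kobayashi hyperbolic, by the theorem of Brody); every
holomorphic map from the punctured disc to `V` extends to the disc; every holomorphic map from an
abelian variety to `V` is constant. -/
theorem result {n : ℕ} (p : Ideal (MvPolynomial (Fin (n + 1)) ℂ)) {m : ℕ} (hm : 1 ≤ m)
    (hg : Generated p m) (q : Ideal (MvPolynomial (Fin (n + 1)) ℂ))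
    (hq : ∀ H ∈ q, ∀ d, homogeneousComponent d H ∈ q) (hpq : p ≤ q) :
    List.TFAE [∀ (K : Type) [Field K] [Algebra ℂ K] (w : ℕ) (y : Fin (n + 1) → K),
        SubVar q K w y → GeneralType ℂ K w,
      ¬ ∃ f, EntCurve q f,
      ∀ f, PuncCurve q f → Extends f,
      ¬ ∃ g Λ f, AbMap q g Λ f] := by
  obtain ⟨N, s, hs⟩ := hg
  have hs' : Gens p m s := ⟨hs⟩
  exact tfae_hyp hq (hs'.res hpq) hm

end Pool.Agent.Results.MP_c6ff8d_ag.GenPowersHyperbolic
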