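import Pool.Agent.H910.Cf.Stc

/-!
# Varieties of arbitrary dimension with many ramified maps to the spaces of the binary forms are
hyperbolic if and only if all their subvarieties are of general type

Let `X` be a complex projective variety, of arbitrary dimension and with arbitrary singularities, with
the function field `K` and the generic point `x` (homogeneous coordinates in `K`; `coords ℂ x = ⊤`
says that their ratios generate `K`). `P^(n + 1)` is the space of the binary forms `y` of degree
`n + 1`. A rational map `y` from `X` to this space, with image not contained in the discriminant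
hypersurface, is *ramified* (`RamP`) if there are distinct numbers `a i` and weights `μ i ≤ M`, `c i`
and `cD` with `(n + 1) (∑ c i + 2 n cD) + 2 M < ∑ μ i`, such that at all places of the points of `X`
(with coordinates in a field extension of `ℂ`, outside of a proper closed subset) the orders of
contact `s i` of the image with the hyperplanes of the forms which vanish at `(1 : a i)` and `t` with
the discriminant hypersurface satisfy one of the following conditions: `t = 0` and each `s i` is zero
or at least `M / (M - μ i)`; or `∑ c i s i + cD t ≥ M`.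

`BinaryClass x`: each closed subvariety `Z` of `X` of dimension at least two has a generically finite
ramified map; or `Z` is of general type and has finitely many ramified maps such that the image of `Z`
in the product has dimension at least `dim Z - 1`.

**Theorem.** (I) For all `X` of this class, of any dimension: the closed curves of geometric genus at
most one in `X` are finite in number; the Zariski closure of each nonconstant entire curve is one of
them, and each of them is the Zariski closure of an entire curve; all other closed subvarieties of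
positive dimension of `X` are of general type; the degree of each nonconstant map from a curve of
genus `g` to `X` is at most `A (2 g - 2)`, or the image is one of these curves. The following are
equivalent: `X` is Kobayashi hyperbolic; `X` is Brody hyperbolic; all closed subvarieties of positive
dimension of `X` are of general type; `X` is algebraically hyperbolic; the maps from each pointed
curve to `X` with a given value at the point are finite in number; there are no closed curves of
geometric genus at most one in `X`.

(II) Surfaces with a generically finite ramified map, and surfaces of general type with a nonconstant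
ramified map, belong to the class (`RamSurface`).

(III) Let `y l` be finitely many generically finite ramified maps from `X`, where `X` is of any
dimension. There are proper closed subsets `G l = 0` of `X` such that `X` belongs to the class if no
closed subvariety of dimension at least two is contained in all of them; and if moreover no closed
curve is contained in all of them then `X` is Kobayashi hyperbolic and all its subvarieties of
positive dimension are of general type.

(IV) A numerical criterion for ramified maps: products of powers of the values at the points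
`(1 : a i)` and of the discriminant of `y` are powers in `K` up to constants, and there are weights
for which all possible orders of contact satisfy the condition.

(V) Examples in all dimensions. Let `a i`, `i ≤ n + 1`, be distinct numbers, `1 ≤ n` and
`2 n + 3 < n m`. Let `Y j` be the forms of degree `m` in `x 0, ..., x (n + 1)` such that
`Y(x) (1 : a i) = x i ^ m`. For each `s ≥ n - 1` there are invertible matrices `σ 0, ..., σ s` such
that all irreducible closed subvarieties of the complete intersection `X_σ` of dimension `n + 1` in
`P^(n + 2 + s)` with the equations `disc Y(σ l x) = (w l) ^ (2 n m)`, `l = 0, ..., s`, belong to the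
class; and if `s ≥ n` then they are all Kobayashi hyperbolic and of general type.

`KobayashiHyp`, `BrodyHyp`, `AllGeneral`, `AlgHyp`, `GeomHyp` :
`Pool/Graph/R_pool_sql_team_seeded_3997aac3/Q103/SF/Defs2.lean`; `lowCurves` :
`Pool/Graph/R_pool_sql_team_seeded_3997aac3/Q103/SF/Defs.lean`; `SubOf` :
`Pool/Graph/R_seed8/TH466/QG/Strong.lean`; `BinaryClass` : `Pool/Agent/H910/Cf/Bcl.lean`;
`CurveSets`, `RamSurface` : `Pool/Agent/H910/Cf/Sst.lean`; `RamP` : `Pool/Agent/H910/Cf/Prj.lean`;
`Ram`, `Gen` : `Pool/Agent/H910/Cf/Defs.lean`; `Root`, `Wts` : `Pool/Agent/H910/Cf/Crit.lean`;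
`OnFib` : `Pool/Agent/H910/Cf/Fib.lean`; `hyp`, `dsc` : `Pool/Agent/H910/Vf/Defs.lean`.
-/

set_option autoImplicit false
set_option linter.overlappingInstances false

open FF Pool.Agent.H910.Cf
open Pool.Agent.W602.GT (coords IsForm GeneralType val)
open Pool.Agent.TH466.QG (SubOf)
open Pool.Agent.Q103.SF (lowCurves KobayashiHyp BrodyHyp AllGeneral AlgHyp GeomHyp)
open Pool.Agent.H910.Vf (hyp dsc)

namespace Pool.Agent.Results.MP_c6ff8d_ag.ManyMapsToBinaryForms

/-- **Lang's conjecture for varieties with many ramified maps to the spaces of the binary forms.** See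
the explanation at the beginning of the file. -/
theorem result :
    (∀ (M : ℕ) (K : Type) [Field K] [Algebra ℂ K] (x : Fin (M + 1) → K), x ≠ 0 →
      coords ℂ x = ⊤ → BinaryClass x → CurveSets x ∧
        List.TFAE [KobayashiHyp x, BrodyHyp x, AllGeneral x, AlgHyp x, GeomHyp x,
          lowCurves x = ∅]) ∧
    (∀ (M : ℕ) (K : Type) [Field K] [Algebra ℂ K] (x : Fin (M + 1) → K), RamSurface x →
      BinaryClass x) ∧
    (∀ (M : ℕ) (K : Type) [Field K] [Algebra ℂ K] (x : Fin (M + 1) → K), x ≠ 0 →
      coords ℂ x = ⊤ → ∀ (r : ℕ) (n : Fin r → ℕ) (y : ∀ l, Fin (n l + 2) → K),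
        (∀ l, RamP ℂ x (y l)) → (∀ l, Algebra.IsAlgebraic (coords ℂ (y l)) K) →
        ∃ G : Fin r → MvPolynomial (Fin (M + 1)) ℂ, (∀ l, IsForm (G l) ∧ val x (G l) ≠ 0) ∧
          ((∀ (E : Type) [Field E] [Algebra ℂ E] (z : Fin (M + 1) → E) (t : ℕ), SubOf ℂ x z →
            Algebra.trdeg ℂ E = t → 2 ≤ t → ∃ l, val z (G l) ≠ 0) → BinaryClass x) ∧
          ((∀ (E : Type) [Field E] [Algebra ℂ E] (z : Fin (M + 1) → E) (t : ℕ), SubOf ℂ x z →
            Algebra.trdeg ℂ E = t → 1 ≤ t → ∃ l, val z (G l) ≠ 0) →
            KobayashiHyp x ∧ AllGeneral x)) ∧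
    (∀ (M : ℕ) (K : Type) [Field K] [Algebra ℂ K] (x : Fin (M + 1) → K), x ≠ 0 →
      coords ℂ x = ⊤ → ∀ (n q r : ℕ) (y : Fin (n + 2) → K) (a : Fin q → ℂ) (m : Fin r → ℕ)
        (c : Fin r → Fin q → ℕ) (d : Fin r → ℕ), Function.Injective a → Gen a y →
        (∀ l, Root a y (m l) (c l) (d l)) →
        (Wts n fun s t => ∀ l, m l ∣ ∑ i, c l i * s i + d l * t) → RamP ℂ x y) ∧
    (∀ (n m : ℕ) (a : Fin (n + 2) → ℂ), Function.Injective a → 1 ≤ n → 2 * n + 3 < n * m →
      ∀ s : ℕ, n ≤ s + 1 → ∃ Y : Fin (n + 2) → MvPolynomial (Fin (n + 2)) ℂ,
        (∀ j, (Y j).IsHomogeneous m) ∧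
        (∀ i, MvPolynomial.aeval Y (hyp ℂ (n + 1) 1 (a i)) = MvPolynomial.X i ^ m) ∧
        ∃ σ : Fin (s + 1) → Matrix (Fin (n + 2)) (Fin (n + 2)) ℂ, (∀ l, (σ l).det ≠ 0) ∧
          ∀ (K : Type) [Field K] [Algebra ℂ K] (x : Fin (n + 2 + s + 1) → K), x ≠ 0 →
            coords ℂ x = ⊤ → OnFib m Y σ x →
            BinaryClass x ∧ (n ≤ s → KobayashiHyp x ∧ AllGeneral x)) := by
  have key : ∀ (M : ℕ) (K : Type) [Field K] [Algebra ℂ K] (x : Fin (M + 1) → K), x ≠ 0 →
      coords ℂ x = ⊤ → Hered 1 x → KobayashiHyp x ∧ AllGeneral x := by
    intro M K _ _ x hx hgen h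
    have h0 := h.hyp hx hgen
    have h1 := ((Hered.mono (by norm_num) h : Hered 2 x).binary.curveSets hx
      hgen).toCurveSets.tfae
    exact ⟨(h1.out 0 5).2 h0, (h1.out 2 5).2 h0⟩
  refine ⟨fun M K _ _ x hx hgen h => ⟨(h.curveSets hx hgen).toCurveSets,
      (h.curveSets hx hgen).toCurveSets.tfae⟩, fun M K _ _ x h => h.binary,
    fun M K _ _ x hx hgen r n y hy halg => ?_,
    fun M K _ _ x hx hgen n q r y a m c d ha hy hroot hw =>
      ramP_criterion hx hgen ha hy hroot hw, fun n m a ha hn hm s hs => ?_⟩
  · obtain ⟨G, hG, hall⟩ := hered_of_maps hx hgen hy halg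
    exact ⟨G, hG, fun h => (hall 2 h).binary, fun h => key M K x hx hgen (hall 1 h)⟩
  · by_cases h : n ≤ s
    · obtain ⟨Y, hY1, hY2, σ, hσ, hall⟩ := fib_class (d := 1) (s := s) hn hm le_rfl (by omega) ha
      exact ⟨Y, hY1, hY2, σ, hσ, fun K _ _ x hx hgen hf =>
        ⟨(Hered.mono (by norm_num) (hall K x hf) : Hered 2 x).binary,
          fun _ => key _ K x hx hgen (hall K x hf)⟩⟩
    · obtain ⟨Y, hY1, hY2, σ, hσ, hall⟩ := fib_class (d := 2) (s := s) hn hm (by norm_num)
        (by omega) ha
      exact ⟨Y, hY1, hY2, σ, hσ, fun K _ _ x hx hgen hf => ⟨(hall K x hf).binary,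
        fun h' => (h h').elim⟩⟩

end Pool.Agent.Results.MP_c6ff8d_ag.ManyMapsToBinaryForms
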